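import Pool.Agent.ATZ.Stmts1
import Pool.Agent.Helper49_AT3.BRG
import Pool.Agent.Helper45_AT8.NRM

/-!
# Squad ATZ, row BFZ: the number of the fixed characters
-/

open scoped BigOperators

noncomputable section

namespace Pool.Agent.PP.TB.H65

open Pool.Agent.Helper51_AWC Pool.Agent.Helper79_WRA Pool.Agent.PP Pool.Agent.PP.KF
open Pool.Agent.PP.K9 Pool.Agent.PP.K9.H97 Pool.Agent.PP.H75 Pool.Agent.PP.T3 Pool.Agent.PP.T2
open Pool.Agent.PP.T5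

attribute [local instance] Ideal.Quotient.field

theorem bfz (zcp : ZcpStmt) (one : OneStmt) (nzf : NzfStmt) (pjz : PjzStmt) (ivz : IvzStmt)
    (avz : AvzStmt) (htz : HtzStmt) (giz : GizStmt) : BfzStmt := by
  intro ℓ hℓ M _ hM G _ _ e V Z γ b hZ hS N hN k hk
  have hp : ℓ.Prime := hℓ.out
  have hl0 : (ℓ : ℂ) ≠ 0 := by exact_mod_cast hp.ne_zero
  have hG0 : (Nat.card G : ℂ) ≠ 0 := by exact_mod_cast (Nat.card_pos (α := G)).ne'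
  have hV0 : (Nat.card V : ℂ) ≠ 0 := by exact_mod_cast (Nat.card_pos (α := V)).ne'
  obtain ⟨-, -, -, hi0, hil, -, hc1⟩ := zcp ℓ M hM G e V Z γ b hZ
  have hiC : (iz V Z γ : ℂ) ≠ 0 := by exact_mod_cast hi0.ne'
  have hiR : ((iz V Z γ : ℂ))⁻¹ ∈ RM M := by
    have h1 : rr M (((iz V Z γ : ℕ) : ℤ) : ℂ) ≠ 0 := fun h =>
      hil (by exact_mod_cast (dvd_of_rr hp hM).1 h)
    rw [Int.cast_natCast] at h1
    exact (inv_RM (rr_nat (M := M) _).1 h1).1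
  obtain ⟨W, hWd⟩ : ∃ W, W = Uw (ℓ ^ k) Z := ⟨_, rfl⟩
  have hWZ : W ≤ Z := by
    rw [hWd]
    refine (Subgroup.closure_le _).mpr ?_
    rintro _ ⟨x, hx, rfl⟩
    exact Z.pow_mem hx _
  have hWT : ∀ t ∈ Tg V γ, ∀ w ∈ W, t * w * t⁻¹ ∈ W := by
    intro t ht w hw
    rw [hWd] at hw ⊢
    refine Subgroup.closure_induction (p := fun w _ => t * w * t⁻¹ ∈ Uw (ℓ ^ k) Z) ?_ ?_ ?_ ?_ hw
    · rintro _ ⟨x, hx, rfl⟩
      exact Subgroup.subset_closure ⟨t * x * t⁻¹, hZ.nrm t ht x hx, conj_pow⟩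
    · rw [mul_one, mul_inv_cancel]
      exact one_mem _
    · intro x y _ _ hx hy
      have h : t * (x * y) * t⁻¹ = (t * x * t⁻¹) * (t * y * t⁻¹) := by group
      rw [h]
      exact mul_mem hx hy
    · intro x _ hx
      have h : t * x⁻¹ * t⁻¹ = (t * x * t⁻¹)⁻¹ := by group
      rw [h]
      exact inv_mem hx
  have hZp : IsPGroup ℓ Z := hZ.tp.pg.to_le hZ.le
  have hZc : ∀ x ∈ Z, ∀ y ∈ Z, x * y = y * x := fun x hx y hy =>
    (hZ.cen x hx y (hZ.le hy)).symm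
  obtain ⟨s, hs⟩ : ∃ s, Nat.card W = ℓ ^ s := IsPGroup.iff_card.1 (hZp.to_le hWZ)
  have hW0 : (Nat.card W : ℂ) ≠ 0 := by exact_mod_cast (Nat.card_pos (α := W)).ne'
  obtain ⟨χ₀, hχ₀, hu⟩ := nzf ℓ M hM G N hN e hZ.blk
  have hχ₀I : χ₀ ∈ Irr G := hχ₀.1.1
  obtain ⟨-, hsum⟩ := pjz ℓ M hM G e V Z γ b hZ W hWZ hWT χ₀ hχ₀I
  have hlow : ∀ χ ∈ Rf M N e, (Nat.card W : ℝ) ^ 2 * (iz V Z γ : ℝ) ^ 2 ≤
      (Nat.card V : ℝ) ^ 2 * Complex.normSq (Pw M ℓ V Z W γ b χ χ₀) := by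
    intro χ hχ
    have hf := hS χ hχ.1 χ₀ hχ₀.1
    have hinv : ∀ v ∈ Z, Az M ℓ V Z γ b χ χ₀ (v ^ N) = Az M ℓ V Z γ b χ χ₀ v := fun v hv =>
      ivz ℓ M hM G e V Z γ b hZ N hN v hv χ hχ.1.1 hχ.2 χ₀ hχ₀I hχ₀.2
    obtain ⟨hA1, hA2⟩ := avz ℓ M hM G N hN Z hZp hZc _ hf hinv k W hWd
    obtain ⟨n, hn⟩ := giz ℓ M hM G e V Z γ b hZ W hWZ hWT χ hχ.1.1 χ₀ hχ₀I
    have hsumA : ∑ᶠ w : W, Az M ℓ V Z γ b χ χ₀ w =
        (Nat.card V : ℂ) * Pw M ℓ V Z W γ b χ χ₀ := by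
      unfold Pw
      rw [mul_finsum]
      refine finsum_congr fun w => ?_
      unfold Az
      ring
    rw [hsumA, hn] at hA1 hA2
    have hn0 : n ≠ 0 := by
      rintro rfl
      rw [Int.cast_zero, mul_zero, mul_zero, sub_zero] at hA2
      have h1 : Az M ℓ V Z γ b χ χ₀ 1 =
          (Nat.card V : ℂ) * (iz V Z γ : ℂ) * rip ℓ χ χ₀ := by
        unfold Az
        rw [hc1, one ℓ M hM G e V Z γ b hZ χ hχ.1 χ₀ hχ₀.1]
      rw [h1] at hA2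
      obtain ⟨hr, hr0⟩ := hu χ hχ.1
      obtain ⟨hri, hrn⟩ := inv_RM hr hr0
      have h2 := (RM M).mul_mem ((RM M).mul_mem hA2 hiR) hri
      have hχ1 : χ 1 ≠ 0 := by
        intro h
        rw [h, div_zero] at hrn
        exact hrn rfl
      have hrip : rip ℓ χ χ₀ ≠ 0 := by
        intro h
        rw [h, mul_zero, zero_div] at hrn
        exact hrn rfl
      have h3 : (Nat.card V : ℂ) * (iz V Z γ : ℂ) * rip ℓ χ χ₀ / (ℓ : ℂ) ^ (k + 1 - ep ℓ) *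
          (iz V Z γ : ℂ)⁻¹ * ((Nat.card G : ℂ) * rip ℓ χ χ₀ / χ 1)⁻¹ =
          (Nat.card V : ℂ) * χ 1 / (Nat.card G * (ℓ : ℂ) ^ (k + 1 - ep ℓ)) := by
        field_simp
      rw [h3] at h2
      exact absurd (htz ℓ M hM G e V Z γ b hZ χ hχ.1 _ h2) (not_le.mpr hk)
    have hWn : (Nat.card W : ℤ) ∣ n := by
      have h1 := (RM M).mul_mem hA1 hiR
      have h2 : ((Nat.card W : ℂ)⁻¹ * ((iz V Z γ : ℂ) * n)) * (iz V Z γ : ℂ)⁻¹ =
          (n : ℂ) / (ℓ : ℂ) ^ s := by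
        have h3 : (Nat.card W : ℂ) = (ℓ : ℂ) ^ s := by rw [hs]; push_cast; rfl
        rw [← h3]
        field_simp
      rw [h2] at h1
      rw [hs]
      push_cast
      exact T8.H45.dvd_RM hp M hM s n h1
    have hle : (Nat.card W : ℤ) ≤ |n| :=
      Int.le_of_dvd (abs_pos.mpr hn0) ((dvd_abs _ _).mpr hWn)
    have hle2 : (Nat.card W : ℝ) ≤ |(n : ℝ)| := by exact_mod_cast hle
    have h4 : (Nat.card V : ℝ) ^ 2 * Complex.normSq (Pw M ℓ V Z W γ b χ χ₀) =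
        (n : ℝ) ^ 2 * (iz V Z γ : ℝ) ^ 2 := by
      have h := congrArg Complex.normSq hn
      rw [Complex.normSq_mul, Complex.normSq_mul, Complex.normSq_natCast,
        Complex.normSq_natCast, Complex.normSq_intCast] at h
      rw [pow_two, h]
      ring
    rw [h4]
    have h5 : (Nat.card W : ℝ) ^ 2 ≤ (n : ℝ) ^ 2 := by
      rw [← sq_abs (n : ℝ)]
      exact pow_le_pow_left₀ (Nat.cast_nonneg _) hle2 2
    exact mul_le_mul_of_nonneg_right h5 (sq_nonneg _)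
  have hfin : (Rf M N e).Finite := (T3.H49.irrE_fin M e).subset fun χ h => h.1
  have hIf : (Irr G).Finite := T3.H49.irr_fin G
  rw [finsum_mem_eq_finite_toFinset_sum _ hIf] at hsum
  have h6 : ∑ χ ∈ hfin.toFinset, Complex.normSq (Pw M ℓ V Z W γ b χ χ₀) ≤
      ∑ χ ∈ hIf.toFinset, Complex.normSq (Pw M ℓ V Z W γ b χ χ₀) := by
    refine Finset.sum_le_sum_of_subset_of_nonneg ?_ fun χ _ _ => Complex.normSq_nonneg _
    intro χ hχ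
    exact hIf.mem_toFinset.2 (hfin.mem_toFinset.1 hχ).1.1
  have h7 : ((Rf M N e).ncard : ℝ) * ((Nat.card W : ℝ) ^ 2 * (iz V Z γ : ℝ) ^ 2) ≤
      (Nat.card V : ℝ) ^ 2 * (iz V Z γ : ℝ) ^ 2 := by
    calc ((Rf M N e).ncard : ℝ) * ((Nat.card W : ℝ) ^ 2 * (iz V Z γ : ℝ) ^ 2)
        = ∑ χ ∈ hfin.toFinset, ((Nat.card W : ℝ) ^ 2 * (iz V Z γ : ℝ) ^ 2) := by
          rw [Finset.sum_const, nsmul_eq_mul, Set.ncard_eq_toFinset_card _ hfin]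
      _ ≤ ∑ χ ∈ hfin.toFinset,
          (Nat.card V : ℝ) ^ 2 * Complex.normSq (Pw M ℓ V Z W γ b χ χ₀) :=
          Finset.sum_le_sum fun χ hχ => hlow χ (hfin.mem_toFinset.1 hχ)
      _ = (Nat.card V : ℝ) ^ 2 *
          ∑ χ ∈ hfin.toFinset, Complex.normSq (Pw M ℓ V Z W γ b χ χ₀) := by
          rw [Finset.mul_sum]
      _ ≤ (Nat.card V : ℝ) ^ 2 * (iz V Z γ : ℝ) ^ 2 :=
          mul_le_mul_of_nonneg_left (h6.trans hsum) (sq_nonneg _)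
  rw [← hWd]
  have hi2 : (0 : ℝ) < (iz V Z γ : ℝ) ^ 2 := by
    have : (0 : ℝ) < (iz V Z γ : ℝ) := by exact_mod_cast hi0
    positivity
  have h8 : ((Rf M N e).ncard : ℝ) * (Nat.card W : ℝ) ^ 2 ≤ (Nat.card V : ℝ) ^ 2 := by
    refine le_of_mul_le_mul_right ?_ hi2
    rw [mul_assoc]
    exact h7
  exact_mod_cast h8

end Pool.Agent.PP.TB.H65
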