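import Pool.Agent.ATZ.Stmts2

/-!
# Squad ATZ, row CLZ: the subgroup `Z(V) ^ (ℓ ^ p)`
-/

open scoped BigOperators

noncomputable section

namespace Pool.Agent.PP.TB.H65

open Pool.Agent.PP.T2 Pool.Agent.PP.TB

theorem zc_comm {G : Type} [Group G] (V : Subgroup G) :
    ∀ x ∈ Zc V, ∀ y ∈ Zc V, x * y = y * x := by
  intro x hx y hy
  have h1 : x ∈ V := (Subgroup.mem_inf.mp hx).1
  have h2 := (Subgroup.mem_inf.mp hy).2
  exact (Subgroup.mem_centralizer_iff.mp h2) x h1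

theorem clz (uwa : UwaStmt) : ClzStmt := by
  intro ℓ hℓ G _ _ r p V hV hCl
  obtain ⟨Z₀, hZ, h1, h2⟩ := hCl
  have hp := hℓ.out
  have hZV : Zc V ≤ V := inf_le_left
  have hcz := zc_comm V
  have hc0 : ∀ x ∈ Z₀, ∀ y ∈ Z₀, x * y = y * x := fun x hx y hy => hcz x (hZ hx) y (hZ hy)
  have hle0 : Nat.card Z₀ ≤ Nat.card (Zc V) := Subgroup.card_le_of_le hZ
  have hleV : Nat.card (Zc V) ≤ Nat.card V := Subgroup.card_le_of_le hZV
  -- the index of `Z₀` in the centre is a power of `ℓ`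
  have hpZ : IsPGroup ℓ (Zc V) := hV.to_le hZV
  obtain ⟨m, hm⟩ := (IsPGroup.iff_card.mp hpZ)
  have hrel : Z₀.relIndex (Zc V) * Nat.card Z₀ = Nat.card (Zc V) := by
    have h := Subgroup.relIndex_mul_relIndex ⊥ Z₀ (Zc V) bot_le hZ
    rw [Subgroup.relIndex_bot_left, Subgroup.relIndex_bot_left] at h
    rw [mul_comm]; exact h
  have hdvd : Z₀.relIndex (Zc V) ∣ ℓ ^ m := by
    rw [← hm, ← hrel]; exact Dvd.intro _ rfl
  obtain ⟨k, hkm, hk⟩ := (Nat.dvd_prime_pow hp).mp hdvd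
  have hpos0 : 0 < Nat.card Z₀ := Nat.card_pos
  have hkp : k ≤ p := by
    have h3 : ℓ ^ k * Nat.card Z₀ ≤ ℓ ^ p * Nat.card Z₀ := by
      rw [← hk, hrel]; exact le_trans hleV h1
    have h4 : ℓ ^ k ≤ ℓ ^ p := Nat.le_of_mul_le_mul_right h3 hpos0
    exact (Nat.pow_le_pow_iff_right hp.one_lt).mp h4
  have hpow : ∀ x ∈ Zc V, x ^ ℓ ^ p ∈ Z₀ := by
    intro x hx
    have hn : (Z₀.subgroupOf (Zc V)).Normal := by
      constructor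
      intro n hn g
      have : g * n * g⁻¹ = n := by
        apply Subtype.ext
        have := hcz g g.2 n n.2
        push_cast
        rw [this, mul_inv_cancel_right]
      rw [this]; exact hn
    have h5 := Subgroup.pow_index_mem (Z₀.subgroupOf (Zc V)) (⟨x, hx⟩ : Zc V)
    have h6 : (Z₀.subgroupOf (Zc V)).index = ℓ ^ k := hk
    rw [h6] at h5
    have h7 : x ^ ℓ ^ k ∈ Z₀ := by
      have := Subgroup.mem_subgroupOf.mp h5
      simpa using this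
    have h8 : x ^ ℓ ^ p = (x ^ ℓ ^ k) ^ ℓ ^ (p - k) := by
      rw [← pow_mul, ← pow_add, Nat.add_sub_cancel' hkp]
    rw [h8]
    exact Z₀.pow_mem h7 _
  have hZle : Uw (ℓ ^ p) (Zc V) ≤ Z₀ := by
    refine (Subgroup.closure_le _).mpr ?_
    rintro _ ⟨x, hx, rfl⟩
    exact hpow x hx
  have hU := uwa G Z₀ hc0
  refine ⟨le_trans h1 (Nat.mul_le_mul_left _ hle0), ?_, ?_⟩
  · have h3 := hU.1 (Uw (ℓ ^ p) (Zc V)) hZle ℓ
    have hpu : 0 < Nat.card (Uw ℓ Z₀) := Nat.card_pos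
    refine Nat.le_of_mul_le_mul_right ?_ hpu
    calc Nat.card (Uw (ℓ ^ p) (Zc V)) * Nat.card (Uw ℓ Z₀)
        ≤ Nat.card Z₀ * Nat.card (Uw ℓ (Uw (ℓ ^ p) (Zc V))) := h3
      _ ≤ (ℓ ^ r * Nat.card (Uw ℓ Z₀)) * Nat.card (Uw ℓ (Uw (ℓ ^ p) (Zc V))) :=
          Nat.mul_le_mul_right _ h2
      _ = ℓ ^ r * Nat.card (Uw ℓ (Uw (ℓ ^ p) (Zc V))) * Nat.card (Uw ℓ Z₀) := by ring
  · have h3 := hU.2.1 ℓ r p h2
    have h4 : Uw (ℓ ^ p) Z₀ ≤ Uw (ℓ ^ p) (Zc V) := (uwa G (Zc V) hcz).2.2 Z₀ hZ (ℓ ^ p)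
    have h5 : Nat.card (Uw (ℓ ^ p) Z₀) ≤ Nat.card (Uw (ℓ ^ p) (Zc V)) :=
      Subgroup.card_le_of_le h4
    calc Nat.card V ≤ ℓ ^ p * Nat.card Z₀ := h1
      _ ≤ ℓ ^ p * (ℓ ^ (r * p) * Nat.card (Uw (ℓ ^ p) Z₀)) := Nat.mul_le_mul_left _ h3
      _ ≤ ℓ ^ p * (ℓ ^ (r * p) * Nat.card (Uw (ℓ ^ p) (Zc V))) :=
          Nat.mul_le_mul_left _ (Nat.mul_le_mul_left _ h5)
      _ = ℓ ^ (p + r * p) * Nat.card (Uw (ℓ ^ p) (Zc V)) := by rw [pow_add]; ring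

end Pool.Agent.PP.TB.H65
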